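import Pool.Agent.Helper93.KDetC

/-!
MP_f54e59_gt: products of `K`-determined spaces.  In every universe there is a class `K` of `T0`
spaces which contains all sober spaces, satisfies the conditions of Keimel and Lawson, is closed
under arbitrary products, and for which a countable product of `K`-determined `T1` spaces is not
`K`-determined.
-/

set_option autoImplicit false

namespace Pool.Agent.Results.MP_f54e59_gt.CountableProduct

open Pool.Agent.Helper93.KDetU (DeterminedSpace IsKeimelLawson)

universe u

theorem result : ∃ K : (∀ (Y : Type u) [TopologicalSpace Y], Prop),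
    IsKeimelLawson K ∧
    (∀ (ι : Type u) (Y : ι → Type u) [∀ i, TopologicalSpace (Y i)],
      (∀ i, K (Y i)) → K (∀ i, Y i)) ∧
    ∃ (X : ℕ → Type u) (_ : ∀ n, TopologicalSpace (X n)),
      (∀ n, T1Space (X n) ∧ DeterminedSpace K (X n)) ∧ ¬ DeterminedSpace K (∀ n, X n) :=
  ⟨Pool.Agent.Helper93.KDetU.K, Pool.Agent.Helper93.KDetU.keimelLawson,
    fun ι Y _ hY => Pool.Agent.Helper93.KDetU.K_pi ι Y hY,
    Pool.Agent.Helper93.KDetU.S, fun n => Pool.Agent.Helper93.KDetU.instTopS n,
    fun n => ⟨inferInstance, Pool.Agent.Helper93.KDetU.determined_S n⟩,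
    Pool.Agent.Helper93.KDetU.not_determined⟩

end Pool.Agent.Results.MP_f54e59_gt.CountableProduct
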